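import Pool.Agent.N856.QL.Stm

/-!
# Project QL (helper856), part ORD: the orderings of an exchangeable Gaussian vector

Written by helper681.
-/

set_option autoImplicit false

open scoped Classical

namespace Pool.Agent.N681.QL

open MeasureTheory ProbabilityTheory Set
open Pool.Agent.N856.QL

instance instPG (J : Type) [Fintype J] : IsProbabilityMeasure (PG J) := by
  unfold PG
  infer_instance

theorem null_eq {J : Type} [Fintype J] {a b : Option J} (hab : a ≠ b) :
    PG J {g | g a = g b} = 0 := by
  have hna : NullSingletonClass (gaussianReal 0 1) := nullSingletonClass_gaussianReal one_ne_zero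
  have hI : IndepFun (fun g : Option J → ℝ => g a) (fun g : Option J → ℝ => g b) (PG J) := by
    have h := iIndepFun_pi (μ := fun _ : Option J => gaussianReal 0 1)
      (X := fun _ : Option J => (id : ℝ → ℝ)) (fun _ => aemeasurable_id)
    exact h.indepFun hab
  have hma : Measurable fun g : Option J → ℝ => g a := measurable_pi_apply a
  have hmb : Measurable fun g : Option J → ℝ => g b := measurable_pi_apply b
  have h1 := (indepFun_iff_map_prod_eq_prod_map_map hma.aemeasurable hmb.aemeasurable).1 hI
  have ha : (PG J).map (fun g : Option J → ℝ => g a) = gaussianReal 0 1 := by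
    unfold PG
    exact (measurePreserving_eval (fun _ : Option J => gaussianReal 0 1) a).map_eq
  have hb : (PG J).map (fun g : Option J → ℝ => g b) = gaussianReal 0 1 := by
    unfold PG
    exact (measurePreserving_eval (fun _ : Option J => gaussianReal 0 1) b).map_eq
  rw [ha, hb] at h1
  have hD : MeasurableSet {p : ℝ × ℝ | p.1 = p.2} :=
    measurableSet_eq_fun measurable_fst measurable_snd
  have h2 : PG J {g | g a = g b} =
      (PG J).map (fun g : Option J → ℝ => (g a, g b)) {p : ℝ × ℝ | p.1 = p.2} := by
    rw [Measure.map_apply (hma.prodMk hmb) hD]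
    rfl
  rw [h2, h1, Measure.measure_prod_null hD]
  refine Filter.Eventually.of_forall fun x => ?_
  have e : Prod.mk x ⁻¹' {p : ℝ × ℝ | p.1 = p.2} = {x} := by
    ext y
    simp [eq_comm]
  change (gaussianReal 0 1) (Prod.mk x ⁻¹' {p : ℝ × ℝ | p.1 = p.2}) = 0
  rw [e]
  exact measure_singleton x

theorem isOpen_A {J : Type} {m : ℕ} (σ : Fin m ≃ J) :
    IsOpen {z : J → ℝ | StrictMono fun i => z (σ i)} := by
  have e : {z : J → ℝ | StrictMono fun i => z (σ i)} =
      ⋂ i : Fin m, ⋂ j : Fin m, {z : J → ℝ | i < j → z (σ i) < z (σ j)} := by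
    ext z
    simp only [mem_ofPred_eq, mem_iInter, StrictMono]
  rw [e]
  refine isOpen_iInter_of_finite fun i => isOpen_iInter_of_finite fun j => ?_
  by_cases h : i < j
  · simp only [h, forall_const]
    exact isOpen_lt (continuous_apply _) (continuous_apply _)
  · simp only [h, false_imp_iff, ofPred_true]
    exact isOpen_univ

theorem closure_A {J : Type} {m : ℕ} (σ : Fin m ≃ J) :
    closure {z : J → ℝ | StrictMono fun i => z (σ i)} ⊆
      {z : J → ℝ | Monotone fun i => z (σ i)} := by
  apply closure_minimal
  · intro z hz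
    exact StrictMono.monotone hz
  · have e : {z : J → ℝ | Monotone fun i => z (σ i)} =
        ⋂ i : Fin m, ⋂ j : Fin m, {z : J → ℝ | i ≤ j → z (σ i) ≤ z (σ j)} := by
      ext z
      simp only [mem_ofPred_eq, mem_iInter, Monotone]
    rw [e]
    refine isClosed_iInter fun i => isClosed_iInter fun j => ?_
    by_cases h : i ≤ j
    · simp only [h, forall_const]
      exact isClosed_le (continuous_apply _) (continuous_apply _)
    · simp only [h, false_imp_iff, ofPred_true]
      exact isClosed_univ

theorem continuous_Zv {J : Type} : Continuous fun g : Option J → ℝ => Zv g := by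
  unfold Zv
  fun_prop

theorem null_frontier {J : Type} [Fintype J] {m : ℕ} (σ : Fin m ≃ J) :
    PG J {g | Zv g ∈ frontier {z : J → ℝ | StrictMono fun i => z (σ i)}} = 0 := by
  have h1 : PG J (⋃ i : Fin m, ⋃ j : Fin m,
      {g : Option J → ℝ | i ≠ j ∧ g (some (σ i)) = g (some (σ j))}) = 0 := by
    refine measure_iUnion_null fun i => measure_iUnion_null fun j => ?_
    by_cases h : i = j
    · simp [h]
    · refine measure_mono_null (fun g hg => hg.2) (null_eq (J := J) (a := some (σ i))
        (b := some (σ j)) ?_)
      intro h2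
      exact h (σ.injective (Option.some_injective _ h2))
  refine measure_mono_null ?_ h1
  intro g hg
  have hg' : Zv g ∈ closure {z : J → ℝ | StrictMono fun i => z (σ i)} \
      {z : J → ℝ | StrictMono fun i => z (σ i)} := by
    have h2 : Zv g ∈ frontier {z : J → ℝ | StrictMono fun i => z (σ i)} := hg
    rw [(isOpen_A σ).frontier_eq] at h2
    exact h2
  have hm := closure_A σ hg'.1
  have hn := hg'.2
  by_contra hc
  apply hn
  have hinj : Function.Injective fun i => Zv g (σ i) := by
    intro i j hij
    by_contra hne
    apply hc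
    simp only [mem_iUnion]
    refine ⟨i, j, hne, ?_⟩
    have h3 : (g none + g (some (σ i))) / 2 = (g none + g (some (σ j))) / 2 := hij
    linarith
  exact Monotone.strictMono_of_injective hm hinj

theorem meas_set {J : Type} [Fintype J] {m : ℕ} (τ : Fin m ≃ J) :
    MeasurableSet {g : Option J → ℝ | StrictMono fun i => Zv g (τ i)} :=
  ((isOpen_A τ).preimage continuous_Zv).measurableSet

theorem perm_eq {J : Type} [Fintype J] {m : ℕ} (σ : Fin m ≃ J) (e : Equiv.Perm J) :
    PG J {g | StrictMono fun i => Zv g ((σ.trans e) i)} =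
      PG J {g | StrictMono fun i => Zv g (σ i)} := by
  have h := measurePreserving_piCongrLeft (fun _ : Option J => gaussianReal 0 1)
    (Equiv.optionCongr e).symm
  have h' : MeasurePreserving
      (MeasurableEquiv.piCongrLeft (fun _ : Option J => ℝ) (Equiv.optionCongr e).symm)
      (PG J) (PG J) := h
  rw [← h'.measure_preimage (meas_set σ).nullMeasurableSet]
  congr 1
  ext g
  have e1 : ∀ x, (MeasurableEquiv.piCongrLeft (fun _ : Option J => ℝ)
      (Equiv.optionCongr e).symm) g x = g (Equiv.optionCongr e x) := by
    intro x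
    have h3 := MeasurableEquiv.piCongrLeft_apply_apply (β := fun _ : Option J => ℝ)
      (Equiv.optionCongr e).symm g (Equiv.optionCongr e x)
    rw [Equiv.symm_apply_apply] at h3
    exact h3
  have e2 : ∀ j, Zv ((MeasurableEquiv.piCongrLeft (fun _ : Option J => ℝ)
      (Equiv.optionCongr e).symm) g) j = Zv g (e j) := by
    intro j
    unfold Zv
    rw [e1, e1]
    rfl
  simp only [mem_ofPred_eq, mem_preimage, e2, Equiv.trans_apply]

theorem perm_eq' {J : Type} [Fintype J] {m : ℕ} (σ τ : Fin m ≃ J) :
    PG J {g | StrictMono fun i => Zv g (τ i)} = PG J {g | StrictMono fun i => Zv g (σ i)} := by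
  have h := perm_eq σ (σ.symm.trans τ)
  have e : σ.trans (σ.symm.trans τ) = τ := by ext i; simp
  rw [e] at h
  exact h

theorem sum_one {J : Type} [Fintype J] {m : ℕ} (σ : Fin m ≃ J) :
    ∑ τ : Fin m ≃ J, PG J {g | StrictMono fun i => Zv g (τ i)} = 1 := by
  have hdis : Pairwise (Function.onFun Disjoint
      fun τ : Fin m ≃ J => {g : Option J → ℝ | StrictMono fun i => Zv g (τ i)}) := by
    intro τ τ' hne
    rw [Function.onFun, Set.disjoint_left]
    intro g h1 h2
    apply hne
    have h1' : StrictMono fun i => Zv g (τ i) := h1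
    have h2' : StrictMono fun i => Zv g (τ' i) := h2
    have hr1 : Set.range (fun i => Zv g (τ i)) = Set.range (Zv g) := by
      ext x
      constructor
      · rintro ⟨i, rfl⟩
        exact ⟨τ i, rfl⟩
      · rintro ⟨j, rfl⟩
        exact ⟨τ.symm j, by simp⟩
    have hr2 : Set.range (fun i => Zv g (τ' i)) = Set.range (Zv g) := by
      ext x
      constructor
      · rintro ⟨i, rfl⟩
        exact ⟨τ' i, rfl⟩
      · rintro ⟨j, rfl⟩
        exact ⟨τ'.symm j, by simp⟩
    have h3 := (h1'.range_inj h2').1 (hr1.trans hr2.symm)
    have hinj : Function.Injective (Zv g) := by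
      intro x y hxy
      have h4 := h1'.injective (a₁ := τ.symm x) (a₂ := τ.symm y) (by simpa using hxy)
      exact τ.symm.injective h4
    ext i
    exact hinj (congrFun h3 i)
  have h1 := measure_iUnion (μ := PG J) hdis (fun τ => meas_set τ)
  rw [tsum_fintype] at h1
  rw [← h1]
  have h2 : PG J (⋃ τ : Fin m ≃ J, {g : Option J → ℝ | StrictMono fun i => Zv g (τ i)})ᶜ = 0 := by
    have h3 : PG J (⋃ i : Fin m, ⋃ j : Fin m,
        {g : Option J → ℝ | i ≠ j ∧ g (some (σ i)) = g (some (σ j))}) = 0 := by
      refine measure_iUnion_null fun i => measure_iUnion_null fun j => ?_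
      by_cases h : i = j
      · simp [h]
      · refine measure_mono_null (fun g hg => hg.2) (null_eq (J := J) (a := some (σ i))
          (b := some (σ j)) ?_)
        intro h2
        exact h (σ.injective (Option.some_injective _ h2))
    refine measure_mono_null ?_ h3
    intro g hg
    by_contra hc
    apply hg
    have hinj : Function.Injective fun i => Zv g (σ i) := by
      intro i j hij
      by_contra hne
      apply hc
      simp only [mem_iUnion]
      refine ⟨i, j, hne, ?_⟩
      have h3 : (g none + g (some (σ i))) / 2 = (g none + g (some (σ j))) / 2 := hij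
      linarith
    rw [mem_iUnion]
    refine ⟨(Tuple.sort fun i => Zv g (σ i)).trans σ, ?_⟩
    have hm := Tuple.monotone_sort fun i => Zv g (σ i)
    exact Monotone.strictMono_of_injective hm (hinj.comp (Equiv.injective _))
  exact (prob_compl_eq_zero_iff (MeasurableSet.iUnion fun τ => meas_set τ)).1 h2

/-- **ORD** -/
theorem t_ORD : S_ORD := by
  intro J _ m σ
  refine ⟨null_frontier σ, ?_⟩
  have h := sum_one σ
  rw [Finset.sum_congr rfl (fun τ _ => perm_eq' σ τ), Finset.sum_const, Finset.card_univ,
    Fintype.card_equiv σ, Fintype.card_fin] at h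
  have hf : (0 : ℝ) < (Nat.factorial m : ℝ) := by exact_mod_cast Nat.factorial_pos m
  have h2 := congrArg ENNReal.toReal h
  rw [nsmul_eq_mul, ENNReal.toReal_mul, ENNReal.toReal_natCast, ENNReal.toReal_one] at h2
  rw [eq_div_iff hf.ne', mul_comm]
  exact h2

end Pool.Agent.N681.QL
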